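import Mathlib
import Pool.Agent.N988.EA.Stm

/-!
# The window step for the hierarchical Edwards-Anderson model
-/

open MeasureTheory Set
open scoped ENNReal

namespace Pool.Agent.N727.EA

open Pool.Agent.N988.EA

/-- Peel off one variable of a finite product. -/
lemma lintegral_succ (μ : Measure ℝ) [IsProbabilityMeasure μ] (n : ℕ) (f : ℝ → ℝ≥0∞)
    (hf : Measurable f) :
    ∫⁻ y, f (∑ i : Fin (n + 1), y i) ∂(Measure.pi fun _ : Fin (n + 1) => μ) =
      ∫⁻ a, ∫⁻ y, f (a + ∑ i : Fin n, y i) ∂(Measure.pi fun _ : Fin n => μ) ∂μ := by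
  have h := measurePreserving_piFinSuccAbove (fun _ : Fin (n + 1) => μ) 0
  have hm : Measurable fun p : ℝ × (Fin n → ℝ) => f (p.1 + ∑ i : Fin n, p.2 i) := by
    refine hf.comp (measurable_fst.add ?_)
    exact Finset.measurable_sum _ fun i _ => (measurable_pi_apply i).comp measurable_snd
  have e := h.lintegral_comp hm
  rw [lintegral_prod _ hm.aemeasurable] at e
  rw [← e]
  refine lintegral_congr fun y => ?_
  rw [Fin.sum_univ_succ]
  rfl

/-- The bound for at least four branches from the bound for four. -/
lemma four_le (μ : Measure ℝ) [IsProbabilityMeasure μ] (S : ℝ) (C : ℝ≥0∞)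
    (h : ∀ z : ℝ, ∫⁻ a, ∫⁻ b, ∫⁻ c, ∫⁻ d,
      (Ico z (z + S)).indicator (fun _ => (1 : ℝ≥0∞)) (a + b + c + d) ∂μ ∂μ ∂μ ∂μ ≤ C) (m : ℕ) :
    ∀ z : ℝ, ∫⁻ y, (Ico z (z + S)).indicator (fun _ => (1 : ℝ≥0∞)) (∑ i : Fin (m + 4), y i)
      ∂(Measure.pi fun _ : Fin (m + 4) => μ) ≤ C := by
  induction m with
  | zero =>
    intro z
    refine le_trans (le_of_eq ?_) (h z)
    have hf : Measurable ((Ico z (z + S)).indicator (fun _ : ℝ => (1 : ℝ≥0∞))) :=
      measurable_const.indicator measurableSet_Ico
    rw [lintegral_succ μ 3 _ hf]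
    refine lintegral_congr fun a => ?_
    rw [lintegral_succ μ 2 (fun t => (Ico z (z + S)).indicator (fun _ => (1 : ℝ≥0∞)) (a + t))
      (hf.comp (measurable_const.add measurable_id))]
    refine lintegral_congr fun b => ?_
    rw [lintegral_succ μ 1 (fun t => (Ico z (z + S)).indicator (fun _ => (1 : ℝ≥0∞)) (a + (b + t)))
      (hf.comp (measurable_const.add (measurable_const.add measurable_id)))]
    refine lintegral_congr fun c => ?_
    rw [lintegral_succ μ 0
      (fun t => (Ico z (z + S)).indicator (fun _ => (1 : ℝ≥0∞)) (a + (b + (c + t))))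
      (hf.comp (measurable_const.add (measurable_const.add (measurable_const.add measurable_id))))]
    refine lintegral_congr fun d => ?_
    simp [add_assoc]
  | succ m ih =>
    intro z
    have hf : Measurable ((Ico z (z + S)).indicator (fun _ : ℝ => (1 : ℝ≥0∞))) :=
      measurable_const.indicator measurableSet_Ico
    rw [show m + 1 + 4 = (m + 4) + 1 by ring]
    rw [lintegral_succ μ (m + 4) _ hf]
    calc _ ≤ ∫⁻ _ : ℝ, C ∂μ := by
          refine lintegral_mono fun a => ?_
          refine le_trans (le_of_eq ?_) (ih (z - a))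
          refine lintegral_congr fun y => ?_
          simp only [Set.indicator_apply, Set.mem_Ico]
          congr 1
          apply propext
          constructor
          · rintro ⟨h1, h2⟩; constructor <;> linarith
          · rintro ⟨h1, h2⟩; constructor <;> linarith
      _ = C := by simp

theorem t_STEP (h1 : S_LAY) (h2 : S_QUAD) : S_STEP := by
  intro b ν _ hsym hb q R N hq hR hN hw x
  have hlay := h1 ν hsym q R hq (by linarith) hw
  have hph : Measurable fun p : ℝ × ℝ => ph p.1 p.2 := by
    unfold ph
    refine Measurable.div_const ?_ 2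
    refine Real.measurable_log.comp ?_
    exact (Real.continuous_cosh.measurable.comp (measurable_fst.add measurable_snd)).div
      (Real.continuous_cosh.measurable.comp (measurable_fst.sub measurable_snd))
  have : IsProbabilityMeasure (br ν) := by
    unfold br
    exact Measure.isProbabilityMeasure_map hph.aemeasurable
  have hq4 := h2 (br ν) (R - 2) q N (by linarith) hq hN hlay
  obtain ⟨m, rfl⟩ : ∃ m, b = m + 4 := ⟨b - 4, by omega⟩
  have h4 := four_le (br ν) (R - 2) _ hq4 m x
  have hs : Measurable fun y : Fin (m + 4) → ℝ => ∑ i, y i :=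
    Finset.measurable_sum _ fun i _ => measurable_pi_apply i
  refine le_trans (le_of_eq ?_) h4
  unfold lawstep
  rw [Measure.map_apply hs measurableSet_Ico]
  rw [← lintegral_indicator_one (hs measurableSet_Ico)]
  rfl

end Pool.Agent.N727.EA
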