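import Pool.Agent.N378.KH.Stm2

/-!
# KH/CMAP: currying preserves product measures
-/

set_option autoImplicit false

open MeasureTheory

namespace Pool.Agent.N727.KH

open Pool.Agent.N378.KH

theorem measurable_fl {n m : ℕ} : Measurable (fun x : Fin n → Fin (m + 1) → ℝ => fl x) := by
  rw [measurable_pi_iff]
  intro e
  exact (measurable_pi_apply e.2).comp (measurable_pi_apply e.1)

theorem t_CMAP : Pool.Agent.N378.KH.S_CMAP := by
  intro n m ν hν
  haveI : ∀ i j, IsProbabilityMeasure (ν i j) := hν
  haveI : ∀ e : Fin n × Fin (m + 1), IsProbabilityMeasure (ν e.1 e.2) := fun e => hν _ _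
  refine ⟨measurable_fl, ?_⟩
  symm
  refine Measure.pi_eq fun s hs => ?_
  rw [Measure.map_apply measurable_fl (MeasurableSet.univ_pi hs)]
  have e : (fun x : Fin n → Fin (m + 1) → ℝ => fl x) ⁻¹' (Set.pi Set.univ s) =
      Set.pi Set.univ (fun i => Set.pi Set.univ (fun j => s (i, j))) := by
    ext x
    simp only [fl, Set.mem_preimage, Set.mem_pi, Set.mem_univ, true_implies, Prod.forall]
  rw [e, Measure.pi_pi, Fintype.prod_prod_type]
  exact Finset.prod_congr rfl fun i _ => by rw [Measure.pi_pi]

end Pool.Agent.N727.KH
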